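import Mathlib

set_option autoImplicit false

namespace Pool.Agent.P.MP_665821_co

/-- `T` is a tournament on `Fin N`; `T a b` means that the edge is oriented `a → b`. -/
def IsTournament {N : ℕ} (T : Fin N → Fin N → Prop) : Prop :=
  (∀ a, ¬ T a a) ∧ ∀ a b, a ≠ b → (T a b ↔ ¬ T b a)

/-- `T` is isomorphic to the transitive tournament (`a → b` iff `a < b`). -/
def IsTransitive {N : ℕ} (T : Fin N → Fin N → Prop) : Prop :=
  ∃ e : Fin N ≃ Fin N, ∀ a b, T a b ↔ e a < e b

/-- `p` is a directed path (distinct vertices, consecutive ones joined forwards) whose edges use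
at most `q - 1` of the `q` colours; the edge `a → b` has colour `c a b`. -/
def IsAvoidingPath {N q : ℕ} (T : Fin N → Fin N → Prop) (c : Fin N → Fin N → Fin q)
    (p : List (Fin N)) : Prop :=
  p.Nodup ∧ ∃ S : Finset (Fin q), S.card ≤ q - 1 ∧ p.IsChain (fun a b => T a b ∧ c a b ∈ S)

/-- The largest number of vertices of a colour-avoiding directed path. -/
noncomputable def longest {N q : ℕ} (T : Fin N → Fin N → Prop) (c : Fin N → Fin N → Fin q) : ℕ :=
  sSup {m | ∃ p, IsAvoidingPath T c p ∧ p.length = m}

/-- `f_{q,q-1}(N)`: the minimum of `longest` over all `q`-colourings of the transitive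
tournament on `N` vertices. -/
noncomputable def f (q N : ℕ) : ℕ :=
  sInf {m | ∃ c : Fin N → Fin N → Fin q, longest (fun a b => a < b) c = m}

end Pool.Agent.P.MP_665821_co
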