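import Mathlib

/-! No ten points of `[6]^4` form a sequence in which every later point is smaller than every
earlier point in at least three coordinates. Points are coded by numbers below `6^4 = 1296`,
sets of points by bit masks. -/

set_option autoImplicit false

namespace Pool.Agent.P.MP_665821_co

/-- The `i`-th base six digit. -/
def dg (i z : ℕ) : ℕ := z / 6 ^ i % 6

/-- Mask of the codes whose `i`-th digit is `< t`. -/
def cl (i t : ℕ) : ℕ := (2 ^ (t * 6 ^ i) - 1) * ((2 ^ 1296 - 1) / (2 ^ (6 ^ (i + 1)) - 1))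

/-- Mask of the codes that are coordinatewise `≤ y`. -/
def leq (y : ℕ) : ℕ :=
  cl 0 (dg 0 y + 1) &&& cl 1 (dg 1 y + 1) &&& cl 2 (dg 2 y + 1) &&& cl 3 (dg 3 y + 1)

/-- Majority (at least three of four). -/
def maj (a b c d : ℕ) : ℕ := (a &&& b &&& (c ||| d)) ||| (c &&& d &&& (a ||| b))

/-- Mask of the codes that are smaller than `y` in at least three coordinates. -/
def dn (y : ℕ) : ℕ := maj (cl 0 (dg 0 y)) (cl 1 (dg 1 y)) (cl 2 (dg 2 y)) (cl 3 (dg 3 y))

/-- Evaluate `n` before passing it on. -/
def force (n : ℕ) (k : ℕ → Bool) : Bool := Nat.casesOn n (k 0) (fun m => k (Nat.succ m))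

theorem force_eq (n : ℕ) (k : ℕ → Bool) : force n k = k n := by cases n <;> rfl

/-- A mask with a hash of it in the low 64 bits (this only speeds up the kernel). -/
def pk (X : ℕ) : ℕ := Nat.add (Nat.mul X 18446744073709551616) (Nat.mod X 18446744073709551557)

/-- Remove the hash. -/
def up (Y : ℕ) : ℕ := Nat.div Y 18446744073709551616

theorem up_pk (X : ℕ) : up (pk X) = X := by
  have h : X % 18446744073709551557 < 18446744073709551557 := Nat.mod_lt _ (by norm_num)
  change (X * 18446744073709551616 + X % 18446744073709551557) / 18446744073709551616 = X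
  omega

/-- One step of the binary search for the top bit. -/
def st (X s a : ℕ) : ℕ := cond (Nat.beq (Nat.shiftRight X (Nat.add a s)) 0) a (Nat.add a s)

/-- The top bit of a hashed mask. -/
def lg (X : ℕ) : ℕ := Nat.sub (st X 1 (st X 2 (st X 4 (st X 8 (st X 16 (st X 32 (st X 64
  (st X 128 (st X 256 (st X 512 (st X 1024 0))))))))))) 64

/-- Run `f` on `R ∩ dn y` for a family of `y` dominating the mask. -/
noncomputable def loop (f : ℕ → Bool) (R : ℕ) (fuel : ℕ) : ℕ → Bool :=
  Nat.rec (fun _ => false)
    (fun _ ih P => cond (Nat.beq P 0) true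
      (force (lg P) fun y => force (pk (Nat.land (up R) (dn y))) f &&
        force (pk (Nat.xor (up P) (Nat.land (up P) (leq y)))) ih)) fuel

/-- The search. -/
noncomputable def ok (m : ℕ) : ℕ → Bool :=
  Nat.rec (fun _ => false) (fun _ ih R => loop ih R 200 R) m

theorem ok_run : ok 10 (pk (2 ^ 1296 - 1)) = true := by decide +kernel

theorem cl_spec : ∀ i < 4, ∀ t < 7, ∀ z < 1296, (cl i t).testBit z = decide (dg i z < t) := by
  decide +kernel

/-- `z` is smaller than `y` in at least three coordinates. -/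
def D (y z : ℕ) : Prop := ∃ j < 4, ∀ i < 4, i ≠ j → dg i z < dg i y

theorem dg_lt (i z : ℕ) : dg i z < 6 := Nat.mod_lt _ (by norm_num)

theorem leq_spec {y z : ℕ} (hz : z < 1296) (h : (leq y).testBit z = true) :
    ∀ i < 4, dg i z ≤ dg i y := by
  have a := fun i (hi : i < 4) => cl_spec i hi (dg i y + 1) (by have := dg_lt i y; omega) z hz
  simp only [leq, Nat.testBit_and, a 0 (by norm_num), a 1 (by norm_num), a 2 (by norm_num),
    a 3 (by norm_num), Bool.and_eq_true, decide_eq_true_eq] at h
  intro i hi
  interval_cases i <;> omega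

theorem maj_spec (a b c d z : ℕ) : (maj a b c d).testBit z =
    ((a.testBit z && b.testBit z && (c.testBit z || d.testBit z)) ||
      (c.testBit z && d.testBit z && (a.testBit z || b.testBit z))) := by
  simp only [maj, Nat.testBit_and, Nat.testBit_or]

theorem dn_spec {y z : ℕ} (hz : z < 1296) (h : D y z) : (dn y).testBit z = true := by
  have a := fun i (hi : i < 4) => cl_spec i hi (dg i y) (by have := dg_lt i y; omega) z hz
  rw [dn, maj_spec, a 0 (by norm_num), a 1 (by norm_num), a 2 (by norm_num), a 3 (by norm_num)]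
  clear a
  obtain ⟨j, hj, h⟩ := h
  have h0 := h 0 (by norm_num)
  have h1 := h 1 (by norm_num)
  have h2 := h 2 (by norm_num)
  have h3 := h 3 (by norm_num)
  clear h
  generalize dg 0 z = a0, dg 1 z = a1, dg 2 z = a2, dg 3 z = a3 at *
  generalize dg 0 y = b0, dg 1 y = b1, dg 2 y = b2, dg 3 y = b3 at *
  simp only [Bool.and_eq_true, Bool.or_eq_true, decide_eq_true_eq]
  omega

theorem loop_spec (f : ℕ → Bool) (R : ℕ) (fuel : ℕ) : ∀ P : ℕ, loop f R fuel P = true →
    ∀ z < 1296, (up P).testBit z = true →
      ∃ y, (∀ i < 4, dg i z ≤ dg i y) ∧ f (pk (up R &&& dn y)) = true := by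
  induction fuel with
  | zero => intro P h; simp [loop] at h
  | succ k ih =>
    intro P h z hz hP
    have e : loop f R (k + 1) P = cond (Nat.beq P 0) true
      (force (lg P) fun y => force (pk (up R &&& dn y)) f &&
        force (pk (up P ^^^ (up P &&& leq y))) (loop f R k)) := rfl
    rw [e] at h
    cases hb : Nat.beq P 0 with
    | true =>
      have : P = 0 := Nat.eq_of_beq_eq_true hb
      have h0 : up 0 = 0 := rfl
      simp [this, h0] at hP
    | false =>
      simp only [hb, cond_false, force_eq, Bool.and_eq_true] at h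
      by_cases hl : (leq (lg P)).testBit z = true
      · exact ⟨_, leq_spec hz hl, h.1⟩
      · exact ih _ h.2 z hz (by simp [up_pk, Nat.testBit_xor, Nat.testBit_and, hP, hl])

theorem ok_spec (m : ℕ) : ∀ R : ℕ, ok m R = true → ∀ l : List ℕ, l.length = m →
    (∀ z ∈ l, z < 1296 ∧ (up R).testBit z = true) → ¬ l.Pairwise D := by
  induction m with
  | zero => intro R h; simp [ok] at h
  | succ m ih =>
    intro R h l hl hm hp
    have e : ok (m + 1) R = loop (ok m) R 200 R := rfl
    rw [e] at h
    obtain _ | ⟨z, l⟩ := l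
    · simp at hl
    · obtain ⟨y, hy, hf⟩ := loop_spec _ _ _ _ h z (hm z (by simp)).1 (hm z (by simp)).2
      rw [List.pairwise_cons] at hp
      refine ih _ hf l (by simpa using hl) (fun w hw => ?_) hp.2
      have hw' := hm w (by simp [hw])
      refine ⟨hw'.1, ?_⟩
      rw [up_pk, Nat.testBit_and, hw'.2, Bool.true_and]
      obtain ⟨j, hj, hD⟩ := hp.1 w hw
      exact dn_spec hw'.1 ⟨j, hj, fun i hi hij => (hD i hi hij).trans_le (hy i hi)⟩

/-- No `3`-decreasing sequence of ten points in `{0,…,5}^4`. -/
theorem no_ten (x : Fin 10 → Fin 4 → ℕ) (hx : ∀ a i, x a i < 6)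
    (h : ∀ a b, a < b → ∃ j, ∀ i, i ≠ j → x b i < x a i) : False := by
  let code : Fin 10 → ℕ := fun a => x a 0 + 6 * x a 1 + 36 * x a 2 + 216 * x a 3
  have hd : ∀ a (i : Fin 4), dg i (code a) = x a i := by
    intro a i
    have h0 := hx a 0
    have h1 := hx a 1
    have h2 := hx a 2
    have h3 := hx a 3
    fin_cases i <;> simp [dg, code] <;> omega
  refine ok_spec 10 _ ok_run (List.ofFn code) (by simp) (fun z hz => ?_) ?_
  · obtain ⟨a, rfl⟩ := List.mem_ofFn.1 hz
    have h0 := hx a 0
    have h1 := hx a 1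
    have h2 := hx a 2
    have h3 := hx a 3
    have : code a < 1296 := by simp only [code]; omega
    exact ⟨this, by rw [up_pk, Nat.testBit_two_pow_sub_one]; simpa using this⟩
  · rw [List.pairwise_ofFn]
    intro a b hab
    obtain ⟨j, hj⟩ := h a b hab
    refine ⟨j, j.2, fun i hi hij => ?_⟩
    have := hj ⟨i, hi⟩ (fun e => hij (by rw [← e]))
    rw [← hd a, ← hd b] at this
    exact this

end Pool.Agent.P.MP_665821_co
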