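import Pool.Agent.P.MP_665821_co.Defs
import Pool.Agent.P.MP_665821_co.Search

/-! The case of four colours. -/

set_option autoImplicit false

namespace Pool.Agent.P.MP_665821_co.Four

/-- Entry `(a, b)` is the colour of the edge `a → b`, or `4` if there is no such edge. -/
def tb (a b : ℕ) : ℕ :=
  ([[4, 2, 0, 1, 2, 3, 3, 3, 3, 3], [4, 4, 0, 4, 0, 3, 3, 3, 3, 3],
    [4, 4, 4, 1, 1, 3, 3, 3, 3, 3], [4, 2, 4, 4, 2, 3, 3, 3, 3, 3],
    [4, 4, 4, 4, 4, 3, 3, 3, 3, 3], [4, 4, 4, 4, 4, 4, 2, 0, 1, 2],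
    [4, 4, 4, 4, 4, 4, 4, 0, 4, 0], [4, 4, 4, 4, 4, 4, 4, 4, 1, 1],
    [4, 4, 4, 4, 4, 4, 2, 4, 4, 2], [4, 4, 4, 4, 4, 4, 4, 4, 4, 4]].getD a []).getD b 4

/-- The tournament. -/
def T0 (a b : Fin 10) : Prop := tb a b < 4

instance : DecidableRel T0 := fun a b => inferInstanceAs (Decidable (tb a b < 4))

/-- Its colouring. -/
def c0 (a b : Fin 10) : Fin 4 := Fin.ofNat 4 (tb a b)

/-- The edge `a → b` exists, avoids colour `i`, and `b` is not among the visited vertices. -/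
def St (i : Fin 4) (a b : Fin 10) (v : List (Fin 10)) : Prop := T0 a b ∧ c0 a b ≠ i ∧ b ∉ v

instance (i : Fin 4) (a b : Fin 10) (v : List (Fin 10)) : Decidable (St i a b v) :=
  inferInstanceAs (Decidable (T0 a b ∧ c0 a b ≠ i ∧ b ∉ v))

theorem no_seven : ∀ (i : Fin 4) (a b : Fin 10), St i a b [] → ∀ c, St i b c [a] →
    ∀ d, St i c d [a, b] → ∀ e, St i d e [a, b, c] → ∀ g, St i e g [a, b, c, d] →
    ∀ h, ¬ St i g h [a, b, c, d, e] := by
  decide +kernel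

theorem bdd {N q : ℕ} (T : Fin N → Fin N → Prop) (c : Fin N → Fin N → Fin q) :
    BddAbove {m | ∃ p, IsAvoidingPath T c p ∧ p.length = m} := by
  refine ⟨N, ?_⟩
  rintro m ⟨p, hp, rfl⟩
  simpa using hp.1.length_le_card

theorem longest_le : longest T0 c0 ≤ 6 := by
  refine csSup_le' ?_
  rintro m ⟨p, ⟨hn, S, hS, hc⟩, rfl⟩
  by_contra hlen
  obtain ⟨i, hi⟩ : ∃ i, i ∉ S := by
    by_contra hall
    push Not at hall
    have : S = Finset.univ := Finset.eq_univ_iff_forall.2 hall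
    rw [this] at hS
    simp at hS
  have hc' : p.IsChain (fun a b => T0 a b ∧ c0 a b ≠ i) :=
    hc.imp fun a b h => ⟨h.1, fun e => hi (e ▸ h.2)⟩
  obtain _ | ⟨a, _ | ⟨b, _ | ⟨c, _ | ⟨d, _ | ⟨e, _ | ⟨g, _ | ⟨h, r⟩⟩⟩⟩⟩⟩⟩ := p
  all_goals try (simp at hlen; done)
  simp only [List.isChain_cons_cons] at hc'
  simp only [List.nodup_cons, List.mem_cons, not_or] at hn
  obtain ⟨h1, h2, h3, h4, h5, h6, -⟩ := hc'
  obtain ⟨⟨-, ac, ad, ae, ag, ah, -⟩, ⟨-, bd, be, bg, bh, -⟩, ⟨-, ce, cg, ch, -⟩, ⟨-, dg, dh, -⟩,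
    ⟨-, eh, -⟩, -⟩ := hn
  refine no_seven i a b ⟨h1.1, h1.2, by simp⟩ c ⟨h2.1, h2.2, ?_⟩ d ⟨h3.1, h3.2, ?_⟩
    e ⟨h4.1, h4.2, ?_⟩ g ⟨h5.1, h5.2, ?_⟩ h ⟨h6.1, h6.2, ?_⟩
  · simp [Ne.symm ac]
  · simp [Ne.symm ad, Ne.symm bd]
  · simp [Ne.symm ae, Ne.symm be, Ne.symm ce]
  · simp [Ne.symm ag, Ne.symm bg, Ne.symm cg, Ne.symm dg]
  · simp [Ne.symm ah, Ne.symm bh, Ne.symm ch, Ne.symm dh, Ne.symm eh]

theorem seven_le (c : Fin 10 → Fin 10 → Fin 4) : 7 ≤ longest (fun a b => a < b) c := by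
  by_contra hlt
  have hall : ∀ (i : Fin 4) (p : List (Fin 10)),
      p.IsChain (fun a b => a < b ∧ c a b ≠ i) → p.length ≤ 6 := by
    intro i p hp
    have h1 : p.Nodup := by
      have : p.IsChain (· < ·) := hp.imp fun a b h => h.1
      exact (List.isChain_iff_pairwise.1 this).imp ne_of_lt
    have h2 : IsAvoidingPath (fun a b => a < b) c p :=
      ⟨h1, Finset.univ.erase i, by simp, hp.imp fun a b h => ⟨h.1, by simpa using h.2⟩⟩
    have := le_csSup (bdd (fun a b => a < b) c) ⟨p, h2, rfl⟩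
    unfold longest at hlt
    omega
  let A : Fin 10 → Fin 4 → Set ℕ := fun a i =>
    {m | ∃ p : List (Fin 10), (a :: p).IsChain (fun a b => a < b ∧ c a b ≠ i) ∧ p.length = m}
  have hb : ∀ a i, ∀ m ∈ A a i, m ≤ 5 := by
    rintro a i m ⟨p, hp, rfl⟩
    have := hall i _ hp
    simp at this
    omega
  have hne : ∀ a i, (A a i).Nonempty := fun a i => ⟨0, [], by simp, rfl⟩
  refine Pool.Agent.P.MP_665821_co.no_ten (fun a i => sSup (A a i)) (fun a i => ?_)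
    (fun a b hab => ⟨c a b, fun i hi => ?_⟩)
  · have : sSup (A a i) ≤ 5 := csSup_le' (hb a i)
    omega
  · obtain ⟨p, hp, hl⟩ := Nat.sSup_mem (hne b i) ⟨5, hb b i⟩
    have : p.length + 1 ≤ sSup (A a i) :=
      le_csSup ⟨5, hb a i⟩ ⟨b :: p, List.isChain_cons_cons.2 ⟨⟨hab, Ne.symm hi⟩, hp⟩, by simp⟩
    change sSup (A b i) < sSup (A a i)
    omega

theorem four_colours : ∃ (T : Fin 10 → Fin 10 → Prop) (c : Fin 10 → Fin 10 → Fin 4),
    IsTournament T ∧ ¬ IsTransitive T ∧ longest T c < f 4 10 := by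
  refine ⟨T0, c0, ⟨by decide +kernel, by decide +kernel⟩, ?_, ?_⟩
  · rintro ⟨e, he⟩
    have h1 := (he 1 2).1 (by decide +kernel)
    have h2 := (he 2 3).1 (by decide +kernel)
    have h3 := (he 3 1).1 (by decide +kernel)
    exact lt_irrefl _ (h1.trans (h2.trans h3))
  · have hne : {m | ∃ c : Fin 10 → Fin 10 → Fin 4, longest (fun a b => a < b) c = m}.Nonempty :=
      ⟨_, fun _ _ => 0, rfl⟩
    obtain ⟨c, hc⟩ := Nat.sInf_mem hne
    have h1 := seven_le c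
    have h2 := longest_le
    unfold f
    omega

end Pool.Agent.P.MP_665821_co.Four
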