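import Pool.Agent.P.MP_665821_co.Four

/-! Tournaments in which every colour-avoiding path misses two vertices. -/

set_option autoImplicit false

namespace Pool.Agent.P.MP_665821_co.Many

open List Sum

/-- A coloured tournament on `N` vertices with `q` colours all of whose colour-avoiding paths
miss two vertices; if `b` holds it has a cyclic triangle. -/
def Good (b : Prop) (N q : ℕ) : Prop :=
  ∃ (V K : Type) (_ : Fintype V) (_ : Fintype K) (T : V → V → Prop) (c : V → V → K),
    Fintype.card V = N ∧ Fintype.card K = q ∧ (∀ a, ¬T a a) ∧ (∀ a b, a ≠ b → (T a b ↔ ¬T b a)) ∧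
    (b → ∃ x y z, T x y ∧ T y z ∧ T z x) ∧
    ∀ (i : K) (p : List V), p.Nodup → p.IsChain (fun a b => T a b ∧ c a b ≠ i) → p.length + 2 ≤ N

theorem split {V W : Type} {R : V ⊕ W → V ⊕ W → Prop} (h : ∀ a b, ¬R (inr a) (inl b)) :
    ∀ p : List (V ⊕ W), p.IsChain R → ∃ (u : List V) (w : List W), p = u.map inl ++ w.map inr
  | [], _ => ⟨[], [], rfl⟩
  | x :: p, hp => by
    obtain ⟨u, w, rfl⟩ := split h p hp.tail
    cases x with
    | inl a => exact ⟨a :: u, w, rfl⟩
    | inr a =>
      cases u with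
      | nil => exact ⟨[], a :: w, rfl⟩
      | cons v u => exact absurd (isChain_cons_cons.1 hp).1 (h a v)

theorem join {b b' : Prop} {N q N' q' : ℕ} (h : Good b N q) (h' : Good b' N' q') (hN : 2 ≤ N)
    (hN' : 2 ≤ N') : Good b (N + N') (q + q' + 1) := by
  obtain ⟨V, K, _, _, T, c, rfl, rfl, a1, a2, a3, a4⟩ := h
  obtain ⟨W, L, _, _, U, d, rfl, rfl, b1, b2, -, b4⟩ := h'
  let T' : V ⊕ W → V ⊕ W → Prop := fun x y => match x, y with
    | inl x, inl y => T x y
    | inr x, inr y => U x y
    | inl _, inr _ => True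
    | inr _, inl _ => False
  let c' : V ⊕ W → V ⊕ W → Option (K ⊕ L) := fun x y => match x, y with
    | inl x, inl y => some (inl (c x y))
    | inr x, inr y => some (inr (d x y))
    | _, _ => none
  refine ⟨V ⊕ W, Option (K ⊕ L), inferInstance, inferInstance, T', c', by simp, by simp,
    ?_, ?_, fun hb => ?_, fun i p hn hp => ?_⟩
  · rintro (x | x)
    exacts [a1 x, b1 x]
  · rintro (x | x) (y | y) hxy
    · exact a2 x y fun e => hxy (e ▸ rfl)
    · simp [T']
    · simp [T']
    · exact b2 x y fun e => hxy (e ▸ rfl)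
  · obtain ⟨x, y, z, h⟩ := a3 hb
    exact ⟨inl x, inl y, inl z, h⟩
  · obtain ⟨u, w, rfl⟩ := split (fun a b h => h.1) p hp
    have n1 : u.Nodup := (nodup_append.1 hn).1.of_map _
    have n2 : w.Nodup := (nodup_append.1 hn).2.1.of_map _
    have l1 := n1.length_le_card
    have l2 := n2.length_le_card
    obtain ⟨c1, c2, c3⟩ := isChain_append.1 hp
    rw [isChain_map] at c1 c2
    rw [length_append, length_map, length_map]
    rcases i with _ | i | i
    · rcases u.eq_nil_or_concat with rfl | ⟨u, x, rfl⟩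
      · simp; omega
      · cases w with
        | nil => rw [length_nil]; omega
        | cons y w => exact absurd rfl (c3 (inl x) (by simp) (inr y) (by simp)).2
    · have := a4 i u n1 (c1.imp fun a b h => ⟨h.1, fun e => h.2 (e ▸ rfl)⟩)
      omega
    · have := b4 i w n2 (c2.imp fun a b h => ⟨h.1, fun e => h.2 (e ▸ rfl)⟩)
      omega

theorem base {b : Prop} {N q : ℕ} (T : Fin (N + 2) → Fin (N + 2) → Prop)
    (c : Fin (N + 2) → Fin (N + 2) → Fin q) (l : Fin q → Fin (N + 2) → Fin N) (h1 : ∀ a, ¬T a a)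
    (h2 : ∀ a b, a ≠ b → (T a b ↔ ¬T b a)) (h3 : b → ∃ x y z, T x y ∧ T y z ∧ T z x)
    (h4 : ∀ i a b, T a b → c a b ≠ i → l i a < l i b) : Good b (N + 2) q := by
  refine ⟨_, _, inferInstance, inferInstance, T, c, by simp, by simp, h1, h2, h3,
    fun i p _ hp => ?_⟩
  have h5 : (p.map (l i)).IsChain (· < ·) :=
    (isChain_map _).2 (hp.imp fun a b h => h4 i a b h.1 h.2)
  have h6 : (p.map (l i)).Nodup := (isChain_iff_pairwise.1 h5).imp ne_of_lt
  have := h6.length_le_card
  simp at this
  omega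

/-- Five points of the cube, pairwise comparable in two coordinates. -/
def pt (i : Fin 3) (a : Fin 5) : Fin 3 :=
  ![![0, 0, 1, 2, 2], ![0, 1, 2, 0, 2], ![0, 2, 0, 1, 2]] i a

theorem five : Good True 5 3 :=
  base (N := 3) (fun a b => 2 ≤ (Finset.univ.filter fun i => pt i a < pt i b).card)
    (fun a b => if pt 0 b ≤ pt 0 a then 0 else if pt 1 b ≤ pt 1 a then 1 else 2) pt
    (by decide) (by decide) (fun _ => by decide) (by decide)

theorem four : Good False 4 2 :=
  base (N := 2) (· < ·) (fun a b => if a.1 / 2 = b.1 / 2 then 0 else 1)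
    (fun i a => ![![0, 0, 1, 1], ![0, 1, 0, 1]] i a) (by decide) (by decide) False.elim
    (by decide)

theorem good (m p : ℕ) : Good True (5 * m + 4 * p + 5) (4 * m + 3 * p + 3) := by
  induction p with
  | zero =>
    induction m with
    | zero => exact five
    | succ m ih => convert join ih five (by omega) (by omega) using 1 <;> omega
  | succ p ih => convert join ih four (by omega) (by omega) using 1 <;> omega

/-- The count in the transitive case. -/
theorem count {n q : ℕ} (c : ℕ → ℕ → Fin q) (h0 : ∀ i, ∃ t, t < n + 1 ∧ c t (t + 1) = i)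
    (h : ∀ i x, x < n + 2 → ∃ t, t < n ∧
      c (if t < x then t else t + 1) (if t + 1 < x then t + 1 else t + 1 + 1) = i) :
    4 * q ≤ 2 * (n + 1) + n := by
  have key : ∀ i, 4 ≤ 2 * ((Finset.range (n + 1)).filter fun t => c t (t + 1) = i).card +
      ((Finset.range n).filter fun t => c t (t + 2) = i).card := fun i => by
    obtain ⟨j, hj, hc⟩ := h0 i
    by_cases hu : ∃ t, t < n + 1 ∧ t ≠ j ∧ c t (t + 1) = i
    · obtain ⟨t, t1, t2, t3⟩ := hu
      have : 1 < ((Finset.range (n + 1)).filter fun t => c t (t + 1) = i).card :=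
        Finset.one_lt_card.2 ⟨t, by simp [t3]; omega, j, by simp [hc]; omega, t2⟩
      omega
    · have hu' : ∀ t, t < n + 1 → c t (t + 1) = i → t = j := fun t a b => by
        by_contra e
        exact hu ⟨t, a, e, b⟩
      have hs : ∀ x, x < n + 2 → x = j ∨ x = j + 1 → ∃ t, t < n ∧ t + 1 = x ∧ c t (t + 2) = i :=
        fun x hx hxj => by
          obtain ⟨t, t1, t2⟩ := h i x hx
          split_ifs at t2 with a b b
          · have := hu' t (by omega) t2
            omega
          · exact ⟨t, t1, by omega, t2⟩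
          · omega
          · have := hu' (t + 1) (by omega) t2
            omega
      obtain ⟨s, s1, s2, s3⟩ := hs j (by omega) (Or.inl rfl)
      obtain ⟨t, t1, t2, t3⟩ := hs (j + 1) (by omega) (Or.inr rfl)
      have a1 : 1 < ((Finset.range n).filter fun t => c t (t + 2) = i).card :=
        Finset.one_lt_card.2 ⟨s, by simp [s1, s3], t, by simp [t1, t3], by omega⟩
      have a2 : 0 < ((Finset.range (n + 1)).filter fun t => c t (t + 1) = i).card :=
        Finset.card_pos.2 ⟨j, by simp [hc]; omega⟩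
      omega
  have e1 := Finset.card_eq_sum_card_fiberwise (s := Finset.range (n + 1)) (t := Finset.univ)
    (f := fun t => c t (t + 1)) fun _ _ => Finset.mem_univ _
  have e2 := Finset.card_eq_sum_card_fiberwise (s := Finset.range n) (t := Finset.univ)
    (f := fun t => c t (t + 2)) fun _ _ => Finset.mem_univ _
  have e3 := Finset.sum_le_sum (s := Finset.univ) fun i _ => key i
  rw [Finset.sum_add_distrib, ← Finset.mul_sum, ← e1, ← e2] at e3
  simp at e3
  omega

theorem path {N q L : ℕ} (c : Fin (N + 1) → Fin (N + 1) → Fin q) (i : Fin q) (g : ℕ → ℕ)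
    (h1 : ∀ t, t ≤ L → g t < N + 1) (h2 : ∀ t, g t < g (t + 1))
    (h3 : longest (fun a b => a < b) c ≤ L) :
    ∃ t, t < L ∧ c (Fin.ofNat _ (g t)) (Fin.ofNat _ (g (t + 1))) = i := by
  by_contra hn
  push Not at hn
  have hp : (List.ofFn fun t : Fin (L + 1) => Fin.ofNat (N + 1) (g t)).IsChain
      fun a b => a < b ∧ c a b ≠ i := by
    rw [isChain_ofFn]
    intro t ht
    refine ⟨?_, hn t (by omega)⟩
    change g t % (N + 1) < g (t + 1) % (N + 1)
    rw [Nat.mod_eq_of_lt (h1 _ (by omega)), Nat.mod_eq_of_lt (h1 _ (by omega))]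
    exact h2 t
  have h4 : IsAvoidingPath (fun a b => a < b) c _ :=
    ⟨(isChain_iff_pairwise.1 (hp.imp fun a b h => h.1)).imp ne_of_lt, Finset.univ.erase i,
      by simp, hp.imp fun a b h => ⟨h.1, by simpa using h.2⟩⟩
  have := le_csSup (Four.bdd (fun a b => a < b) c) ⟨_, h4, rfl⟩
  rw [length_ofFn] at this
  unfold longest at h3
  omega

theorem lower {n q : ℕ} (hq : 0 < q) (h : 3 * (n + 2) < 4 * (q + 1)) : n < f q (n + 2) := by
  have hne : {m | ∃ c : Fin (n + 2) → Fin (n + 2) → Fin q,
      longest (fun a b => a < b) c = m}.Nonempty := ⟨_, fun _ _ => ⟨0, hq⟩, rfl⟩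
  obtain ⟨c, hc⟩ := Nat.sInf_mem hne
  by_contra hlt
  have hl : longest (fun a b => a < b) c ≤ n := by unfold f at hlt; omega
  have := count (n := n) (fun a b => c (Fin.ofNat _ a) (Fin.ofNat _ b))
    (fun i => path c i id (fun t ht => by simp; omega) (fun t => by simp) (hl.trans n.le_succ))
    fun i x _ => path c i (fun t => if t < x then t else t + 1)
      (fun t ht => by split_ifs <;> omega) (fun t => by split_ifs <;> omega) hl
  omega

theorem upper {n q : ℕ} (hq : 0 < q) (h : Good True (n + 2) q) :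
    ∃ (T : Fin (n + 2) → Fin (n + 2) → Prop) (c : Fin (n + 2) → Fin (n + 2) → Fin q),
      IsTournament T ∧ ¬IsTransitive T ∧ longest T c ≤ n := by
  obtain ⟨V, K, _, _, T, c, hV, hK, a1, a2, a3, a4⟩ := h
  let e := (Fintype.equivFinOfCardEq hV).symm
  let k := Fintype.equivFinOfCardEq hK
  refine ⟨fun a b => T (e a) (e b), fun a b => k (c (e a) (e b)),
    ⟨fun a => a1 _, fun a b h => a2 _ _ (e.injective.ne h)⟩, ?_, csSup_le' ?_⟩
  · rintro ⟨s, hs⟩
    obtain ⟨x, y, z, h1, h2, h3⟩ := a3 trivial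
    obtain ⟨x, rfl⟩ := e.surjective x
    obtain ⟨y, rfl⟩ := e.surjective y
    obtain ⟨z, rfl⟩ := e.surjective z
    exact lt_irrefl _ (((hs _ _).1 h1).trans (((hs _ _).1 h2).trans ((hs _ _).1 h3)))
  · rintro m ⟨p, ⟨hn, S, hS, hc⟩, rfl⟩
    obtain ⟨i, hi⟩ : ∃ i, i ∉ S := by
      by_contra hall
      push Not at hall
      rw [Finset.eq_univ_iff_forall.2 hall, Finset.card_univ, Fintype.card_fin] at hS
      omega
    have := a4 (k.symm i) (p.map e) (hn.map e.injective) ((isChain_map _).2
      (hc.imp fun a b h => ⟨h.1, fun e' => hi (k.eq_symm_apply.1 e' ▸ h.2)⟩))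
    rw [length_map] at this
    omega

theorem many {q : ℕ} (h : 6 ≤ q) (h8 : q ≠ 8) :
    ∃ (N : ℕ) (T : Fin N → Fin N → Prop) (c : Fin N → Fin N → Fin q),
      IsTournament T ∧ ¬IsTransitive T ∧ longest T c < f q N := by
  obtain ⟨m, p, rfl⟩ : ∃ m p, q = 4 * m + 3 * p + 3 := ⟨q % 3, (q - 3 - 4 * (q % 3)) / 3, by omega⟩
  obtain ⟨T, c, h1, h2, h3⟩ := upper (n := 5 * m + 4 * p + 3) (by omega) (good m p)
  exact ⟨_, T, c, h1, h2, h3.trans_lt (lower (by omega) (by omega))⟩

end Pool.Agent.P.MP_665821_co.Many
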